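import Mathlib

/-!
Points of the cube as images of binary sequences: `pr n z` is the point of `[0,1]^n` whose `i`-th
coordinate has the binary digits `z i, z (n + i), z (2n + i), …`. The map is Hölder with exponent
`1/n` for the metric `2^{-m}` on the binary sequences.
-/

set_option autoImplicit false
open Set Topology
open scoped ENNReal NNReal

namespace Pool.Agent.Y30.BI

/-- digits as elements of `Fin 2` -/
def toF (c : Bool) : Fin 2 := if c then 1 else 0

/-- digits as truth values -/
def ofF (d : Fin 2) : Bool := decide (d = 1)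

lemma toF_ofF (d : Fin 2) : toF (ofF d) = d := by
  fin_cases d <;> simp [toF, ofF]

/-- the point of the cube with the given digits -/
noncomputable def pr (n : ℕ) (z : ℕ → Bool) : Fin n → ℝ :=
  fun i => Real.ofDigits (fun j => toF (z (n * j + i)))

/-- binary digits of a point of the cube -/
noncomputable def dg (n : ℕ) (y : Fin n → ℝ) : ℕ → Bool :=
  fun k => if h : k % n < n then ofF (Real.digits (y ⟨k % n, h⟩) 2 (k / n)) else false

lemma pr_dg (n : ℕ) (y : Fin n → ℝ) (hy : ∀ i, y i ∈ Set.Ico (0 : ℝ) 1) : pr n (dg n y) = y := by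
  funext i
  have h1 : (fun j => toF (dg n y (n * j + i))) = Real.digits (y i) 2 := by
    funext j
    have h2 : (n * j + (i : ℕ)) % n = i := by
      rw [Nat.mul_add_mod, Nat.mod_eq_of_lt i.2]
    have h3 : (n * j + (i : ℕ)) / n = j := by
      have hn : 0 < n := lt_of_le_of_lt (Nat.zero_le _) i.2
      rw [Nat.mul_add_div hn, Nat.div_eq_of_lt i.2, add_zero]
    unfold dg
    have h4 : (n * j + (i : ℕ)) % n < n := by rw [h2]; exact i.2
    rw [dif_pos h4, toF_ofF, h3]
    congr 1
    congr 1
    exact Fin.ext h2
  unfold pr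
  rw [h1]
  exact Real.ofDigits_digits (by norm_num) (hy i)

lemma measurable_dg (n : ℕ) : Measurable (dg n) := by
  rw [measurable_pi_iff]
  intro k
  unfold dg
  by_cases h : k % n < n
  · simp only [h, dif_pos]
    have h1 : Measurable fun y : Fin n → ℝ => Real.digits (y ⟨k % n, h⟩) 2 (k / n) := by
      unfold Real.digits
      have h2 : Measurable fun y : Fin n → ℝ =>
          ⌊y ⟨k % n, h⟩ * ((2 : ℕ) : ℝ) ^ (k / n + 1)⌋₊ :=
        Nat.measurable_floor.comp ((measurable_pi_apply _).mul_const _)
      exact (measurable_from_top (f := fun m : ℕ => Fin.ofNat 2 m)).comp h2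
    exact (measurable_from_top (f := ofF)).comp h1
  · simp only [h, dif_neg, not_false_eq_true]
    exact measurable_const

lemma pr_close (n : ℕ) (z z' : ℕ → Bool) (m : ℕ) (h : ∀ k < m, z k = z' k) (i : Fin n) :
    |pr n z i - pr n z' i| ≤ ((2 : ℝ) ^ (m / n))⁻¹ := by
  unfold pr
  have hn : 0 < n := lt_of_le_of_lt (Nat.zero_le _) i.2
  have h1 := Real.abs_ofDigits_sub_ofDigits_le (b := 2) (x := fun j => toF (z (n * j + i)))
    (y := fun j => toF (z' (n * j + i))) (n := m / n) (fun j hj => by
      have h2 : n * j + (i : ℕ) < m := by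
        have h3 : n * (j + 1) ≤ n * (m / n) := Nat.mul_le_mul_left _ hj
        have h4 := Nat.mul_div_le m n
        have h5 := i.2
        have h6 : n * (j + 1) = n * j + n := by ring
        omega
      simp only [h _ h2])
  exact_mod_cast h1

end Pool.Agent.Y30.BI
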