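import Pool.Agent.Y30.BI.Digits
import Pool.Agent.Helper747.BLL

/-!
Under CH: a set of Hausdorff dimension `s` all of whose uncountable subsets have positive
`s`-dimensional Hausdorff measure, and whose Borel images have dimension at most `s` in the Cantor
space and at most `n s` in `ℝ^n`.
-/

set_option autoImplicit false
open Set Topology Filter MeasureTheory
open scoped ENNReal NNReal Cardinal

namespace Pool.Agent.Y30.BI

open Pool.Agent.Helper747.BL

attribute [local instance] cantorMetric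

lemma holder (n : ℕ) (hn : 1 ≤ n) (v : Fin n → ℝ) :
    HolderWith 2 (1 / (n : ℝ≥0)) (fun z : X => fun i : Fin n => v i + pr n z i) := by
  intro z z'
  rcases eq_or_ne z z' with rfl | hne
  · simp
  have hn0 : (0 : ℝ) < n := by exact_mod_cast hn
  have hd : dist z z' = (1 / 2 : ℝ) ^ PiNat.firstDiff z z' := PiNat.dist_eq_of_ne hne
  obtain ⟨m, hm⟩ : ∃ m, m = PiNat.firstDiff z z' := ⟨_, rfl⟩
  rw [← hm] at hd
  have h1 : ∀ k < m, z k = z' k := fun k hk => PiNat.apply_eq_of_lt_firstDiff (hm ▸ hk)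
  have h2 : dist (fun i : Fin n => v i + pr n z i) (fun i : Fin n => v i + pr n z' i) ≤
      2 * (dist z z') ^ (1 / (n : ℝ)) := by
    have h3 : (0 : ℝ) ≤ 2 * (dist z z') ^ (1 / (n : ℝ)) := by positivity
    rw [dist_pi_le_iff h3]
    intro i
    rw [Real.dist_eq, add_sub_add_left_eq_sub]
    refine (pr_close n z z' m h1 i).trans ?_
    have h4 : (dist z z') ^ (1 / (n : ℝ)) = (2 : ℝ) ^ (-((m : ℝ) / n)) := by
      rw [hd, ← Real.rpow_natCast, ← Real.rpow_mul (by norm_num), one_div,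
        Real.inv_rpow (by norm_num), ← Real.rpow_neg (by norm_num)]
      congr 1
      ring
    rw [h4]
    have h5 : ((2 : ℝ) ^ (m / n))⁻¹ = (2 : ℝ) ^ (-((m / n : ℕ) : ℝ)) := by
      rw [Real.rpow_neg (by norm_num), Real.rpow_natCast]
    have h6 : (2 : ℝ) * (2 : ℝ) ^ (-((m : ℝ) / n)) = (2 : ℝ) ^ (1 - (m : ℝ) / n) := by
      rw [sub_eq_add_neg, Real.rpow_add (by norm_num), Real.rpow_one]
    rw [h5, h6]
    refine Real.rpow_le_rpow_of_exponent_le (by norm_num) ?_
    have h7 : (m : ℝ) / n < ((m / n : ℕ) : ℝ) + 1 := by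
      rw [div_lt_iff₀ hn0]
      have h8 : m < (m / n + 1) * n := by
        have h9 := Nat.div_add_mod m n
        have h10 := Nat.mod_lt m (by omega : 0 < n)
        have h11 : (m / n + 1) * n = n * (m / n) + n := by ring
        omega
      exact_mod_cast h8
    linarith
  rw [edist_dist, edist_dist]
  have h3 : (((1 / (n : ℝ≥0) : ℝ≥0)) : ℝ) = 1 / (n : ℝ) := by push_cast; rfl
  rw [h3, ENNReal.ofReal_rpow_of_nonneg dist_nonneg (by positivity)]
  have h4 : ((2 : ℝ≥0) : ℝ≥0∞) = ENNReal.ofReal 2 := by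
    rw [ENNReal.ofReal_ofNat]
    rfl
  rw [h4, ← ENNReal.ofReal_mul (by norm_num)]
  exact ENNReal.ofReal_le_ofReal h2

/-- from images in the Cantor space to images in `ℝ^n` -/
theorem dim_images {E : Set X} {s : ℝ≥0} (himg : ∀ f : X → X, Measurable f → dimH (f '' E) ≤ s)
    (n : ℕ) (f : X → Fin n → ℝ) (hf : Measurable f) : dimH (f '' E) ≤ n * s := by
  rcases Nat.eq_zero_or_pos n with rfl | hn
  · have : (f '' E).Subsingleton := fun a _ b _ => Subsingleton.elim a b
    rw [dimH_subsingleton this]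
    exact zero_le
  have hn0 : (0 : ℝ≥0) < n := by exact_mod_cast hn
  set f' : X → X := fun x => dg n (fun i => Int.fract (f x i)) with hf'
  have hf'm : Measurable f' := (measurable_dg n).comp (measurable_pi_iff.2 fun i =>
    measurable_fract.comp ((measurable_pi_apply i).comp hf))
  have hsub : f '' E ⊆ ⋃ k : Fin n → ℤ,
      (fun z : X => fun i : Fin n => (k i : ℝ) + pr n z i) '' (f' '' E) := by
    rintro _ ⟨x, hx, rfl⟩
    rw [mem_iUnion]
    refine ⟨fun i => ⌊f x i⌋, f' x, ⟨x, hx, rfl⟩, ?_⟩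
    funext i
    have h1 : pr n (f' x) = fun i => Int.fract (f x i) :=
      pr_dg n _ (fun i => ⟨Int.fract_nonneg _, Int.fract_lt_one _⟩)
    simp only [h1]
    exact Int.floor_add_fract _
  refine (dimH_mono hsub).trans ?_
  rw [dimH_iUnion]
  refine iSup_le fun k => ?_
  have h1 := (holder n hn (fun i => (k i : ℝ))).dimH_image_le (by positivity) (f' '' E)
  refine h1.trans ?_
  have h2 : dimH (f' '' E) / ((1 / (n : ℝ≥0) : ℝ≥0) : ℝ≥0∞) ≤
      (s : ℝ≥0∞) / ((1 / (n : ℝ≥0) : ℝ≥0) : ℝ≥0∞) := ENNReal.div_le_div_right (himg f' hf'm) _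
  refine h2.trans (le_of_eq ?_)
  rw [← ENNReal.coe_div (by positivity)]
  have h3 : s / (1 / (n : ℝ≥0)) = n * s := by field_simp
  rw [h3]
  push_cast
  rfl

theorem main_hered {s : ℝ≥0} (hs0 : 0 < s) (hs1 : s < 1)
    (CH : (Cardinal.continuum : Cardinal.{0}) = Cardinal.aleph 1) :
    ∃ E : Set X, dimH E = s ∧
      (∀ f : X → X, Measurable f → ∃ G : Set X, dimH G ≤ s ∧ {x | x ∈ E ∧ f x ∉ G}.Countable) ∧
      ∀ E' : Set X, E' ⊆ E → ¬ E'.Countable → μH[(s : ℝ)] E' ≠ 0 := by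
  classical
  let r : ℝ≥0 := (1 / 2 : ℝ≥0) ^ (s : ℝ)
  have hrs : (r : ℝ) = (1 / 2 : ℝ) ^ (s : ℝ) := by
    simp only [r]
    push_cast
    rfl
  have hs0' : (0 : ℝ) < s := by exact_mod_cast hs0
  have hs1' : (s : ℝ) < 1 := by exact_mod_cast hs1
  have hr' : (1 / 2 : ℝ) < r := by
    rw [hrs]
    have := Real.rpow_lt_rpow_of_exponent_gt (show (0 : ℝ) < 1 / 2 by norm_num)
      (by norm_num) hs1'
    rwa [Real.rpow_one] at this
  have hr1' : (r : ℝ) < 1 := by
    rw [hrs]
    exact Real.rpow_lt_one (by norm_num) (by norm_num) hs0'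
  have hr : 1 / 2 < r := by exact_mod_cast hr'
  have hr1 : r < 1 := by exact_mod_cast hr1'
  have hlists : ∀ f : {f : X → X // Measurable f}, ∃ G : Set X, dimH G ≤ s ∧
      Meag r {x | f.1 x ∉ G} := by
    intro f
    obtain ⟨Λ, h1, h2, h3⟩ := exists_lists hr hr1.le f.2
    exact ⟨{y : X | ∀ J, ∃ᶠ l in atTop, pre y (J * l) ∈ Λ J l}, dimH_lists_le hrs Λ h1 h2, h3⟩
  choose G hG1 hG2 using hlists
  let P : Type := {f : X → X // Measurable f} × (ℕ → Set Str)
  have hP : #P ≤ Cardinal.aleph 1 := by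
    rw [← CH]
    have : #P = #{f : X → X // Measurable f} * #(ℕ → Set Str) := Cardinal.mul_def _ _ |>.symm
    rw [this]
    calc #{f : X → X // Measurable f} * #(ℕ → Set Str)
        ≤ Cardinal.continuum * Cardinal.continuum := mul_le_mul' card_measurable card_codes
      _ = Cardinal.continuum := Cardinal.continuum_mul_self
  haveI : Nonempty P := ⟨(⟨id, measurable_id⟩, fun _ => ∅)⟩
  obtain ⟨g, hg⟩ := exists_enum hP
  let Bad : P → Set X := fun p => {x | p.1.1 x ∉ G p.1} ∪ NullSet r p.2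
  have hBad : ∀ p, Meag r (Bad p) := fun p => (hG2 p.1).union (nd_nullSet hr1.le p.2).meag
  have hx : ∀ i : (Cardinal.aleph 1 : Cardinal.{0}).ord.ToType, ∃ x : X, ∀ j ≤ i, x ∉ Bad (g j) := by
    intro i
    haveI : Countable (Set.Iic i) := countable_Iic i
    have hm : Meag r (⋃ j : Set.Iic i, Bad (g j)) := Meag.iUnion fun j => hBad _
    obtain ⟨x, _, hx⟩ := baire hr.le (cond_univ (r := r)) hm
    refine ⟨x, fun j hj hxj => hx ?_⟩
    exact Set.mem_iUnion.2 ⟨⟨j, hj⟩, hxj⟩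
  choose x hx using hx
  have himg : ∀ f : X → X, Measurable f → ∃ G : Set X, dimH G ≤ s ∧
      {y | y ∈ Set.range x ∧ f y ∉ G}.Countable := by
    intro f hf
    obtain ⟨i, hi⟩ := hg (⟨f, hf⟩, fun _ => ∅)
    refine ⟨G ⟨f, hf⟩, hG1 _, ((countable_Iic i).image x).mono ?_⟩
    rintro _ ⟨⟨j, rfl⟩, hj⟩
    rcases le_total j i with h | h
    · exact ⟨j, h, rfl⟩
    · exfalso
      have h1 := hx j i h
      rw [hi] at h1
      exact h1 (Or.inl hj)
  have hsub : ∀ E' : Set X, E' ⊆ Set.range x → ¬ E'.Countable → μH[(s : ℝ)] E' ≠ 0 := by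
    intro E' hE' hcount h0
    obtain ⟨c, hc⟩ := exists_code hrs hr.le hr1 h0
    obtain ⟨i, hi⟩ := hg (⟨id, measurable_id⟩, c)
    apply hcount
    refine ((countable_Iic i).image x).mono ?_
    intro y hy
    obtain ⟨j, rfl⟩ := hE' hy
    rcases le_total j i with h | h
    · exact ⟨j, h, rfl⟩
    · exfalso
      have h1 := hx j i h
      rw [hi] at h1
      exact h1 (Or.inr (hc hy))
  refine ⟨Set.range x, le_antisymm ?_ ?_, himg, hsub⟩
  · obtain ⟨G', h1, h2⟩ := himg id measurable_id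
    have h3 : Set.range x ⊆ G' ∪ {y | y ∈ Set.range x ∧ id y ∉ G'} := by
      intro y hy
      by_cases h : y ∈ G'
      · exact Or.inl h
      · exact Or.inr ⟨hy, h⟩
    refine (dimH_mono h3).trans ?_
    rw [dimH_union, dimH_countable h2]
    exact max_le h1 zero_le
  · refine measure_ne_zero hrs hr.le hr1 fun c hc => ?_
    obtain ⟨i, hi⟩ := hg (⟨id, measurable_id⟩, c)
    have h1 := hx i i le_rfl
    rw [hi] at h1
    exact h1 (Or.inr (hc ⟨i, rfl⟩))

end Pool.Agent.Y30.BI
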